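import Pool.Agent.H730R4.Defs

/-!
The value of `χ*_cr` for the ordered complete tripartite graph with parts of size two.
-/

namespace Pool.Agent.H730R4

section multipartite

variable {N k : ℕ} {B : SimpleGraph (Fin N)} {c : Fin N → Fin k}

lemma mp_chrom (hc : Function.Surjective c) (hB : ∀ u v, B.Adj u v ↔ c u ≠ c v) :
    B.chromaticNumber.toNat = k := by
  have hcol : B.Colorable k := ⟨SimpleGraph.Coloring.mk c (fun {u v} h => (hB u v).1 h)⟩
  have hle : B.chromaticNumber ≤ k := hcol.chromaticNumber_le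
  have hge : (k : ℕ∞) ≤ B.chromaticNumber := by
    let s : Fin k → Fin N := Function.surjInv hc
    have hs : ∀ i, c (s i) = i := Function.surjInv_eq hc
    have hsinj : Function.Injective s := fun i j h => by rw [← hs i, ← hs j, h]
    have hcl : B.IsClique (Finset.univ.image s : Finset (Fin N)) := by
      intro x hx y hy hxy
      simp only [Finset.coe_image, Finset.coe_univ, Set.image_univ, Set.mem_range] at hx hy
      obtain ⟨i, rfl⟩ := hx
      obtain ⟨j, rfl⟩ := hy
      rw [hB, hs, hs]
      rintro rfl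
      exact hxy rfl
    have h := hcl.card_le_chromaticNumber
    rw [Finset.card_image_of_injective _ hsinj, Finset.card_univ, Fintype.card_fin] at h
    exact h
  have : B.chromaticNumber = k := le_antisymm hle hge
  rw [this]
  simp

lemma mp_class (hc : Function.Surjective c) (hB : ∀ u v, B.Adj u v ↔ c u ≠ c v)
    (C : B.Coloring (Fin k)) (i : Fin k) : ∃ j, {v | C v = i} = {v | c v = j} := by
  let s : Fin k → Fin N := Function.surjInv hc
  have hs : ∀ i, c (s i) = i := Function.surjInv_eq hc
  have hinj : Function.Injective (fun j => C (s j)) := by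
    intro j l hjl
    by_contra hne
    have : B.Adj (s j) (s l) := by rw [hB, hs, hs]; exact hne
    exact C.valid this hjl
  have hsurj : Function.Surjective (fun j => C (s j)) := Finite.injective_iff_surjective.1 hinj
  have key : ∀ v j, C v = C (s j) → c v = j := by
    intro v j h
    by_contra hne
    have : B.Adj v (s j) := by rw [hB, hs]; exact hne
    exact C.valid this h
  obtain ⟨j, hj⟩ := hsurj i
  refine ⟨j, ?_⟩
  ext v
  simp only [Set.mem_ofPred_eq]
  constructor
  · intro h
    exact key v j (by rw [h]; exact hj.symm)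
  · intro h
    obtain ⟨l, hl⟩ := hsurj (C v)
    have h1 := key v l hl.symm
    rw [h] at h1
    subst h1
    exact hl.symm.trans hj

/-- The natural colouring. -/
def natCol (hB : ∀ u v, B.Adj u v ↔ c u ≠ c v) : B.Coloring (Fin k) :=
  SimpleGraph.Coloring.mk c (fun {u v} h => (hB u v).1 h)

lemma mp_least_le (hB : ∀ u v, B.Adj u v ↔ c u ≠ c v) (i : Fin k) :
    leastClass B k ≤ {v | c v = i}.ncard :=
  Nat.sInf_le ⟨natCol hB, i, rfl⟩

lemma mp_least_mem (hk : 0 < k) (hc : Function.Surjective c)
    (hB : ∀ u v, B.Adj u v ↔ c u ≠ c v) :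
    ∃ j, leastClass B k = {v | c v = j}.ncard := by
  have hne : {m : ℕ | ∃ (C : B.Coloring (Fin k)) (i : Fin k), m = {v | C v = i}.ncard}.Nonempty :=
    ⟨_, natCol hB, ⟨0, hk⟩, rfl⟩
  obtain ⟨C, i, h⟩ := Nat.sInf_mem hne
  obtain ⟨j, hj⟩ := mp_class hc hB C i
  refine ⟨j, ?_⟩
  unfold leastClass
  rw [h, hj]

end multipartite

/-- The parts of `K222`. -/
def c6 : Fin 6 → Fin 3 := fun v => ⟨(v : ℕ) / 2, by omega⟩

lemma c6_surj : Function.Surjective c6 := by decide

lemma c6_adj (u v : Fin 6) : K222.Adj u v ↔ c6 u ≠ c6 v := by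
  change (u : ℕ) / 2 ≠ (v : ℕ) / 2 ↔ _
  rw [Ne, Ne, Fin.ext_iff]
  rfl

lemma chiCr_K222_le : chiCr K222 ≤ 3 := by
  unfold chiCr
  rw [mp_chrom c6_surj c6_adj]
  have h1 : leastClass K222 3 ≤ 2 := by
    refine (mp_least_le c6_adj 0).trans ?_
    have : {v | c6 v = 0} = ↑({0, 1} : Finset (Fin 6)) := by
      ext v
      simp only [Set.mem_ofPred_eq, Finset.coe_insert, Finset.coe_singleton, Set.mem_insert_iff,
        Set.mem_singleton_iff]
      revert v
      decide
    rw [this, Set.ncard_coe_finset]
    decide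
  have h2 : (leastClass K222 3 : ℝ) ≤ 2 := by exact_mod_cast h1
  rw [div_le_iff₀ (by push_cast; linarith)]
  push_cast
  linarith

lemma c6_count : ∀ (σ : Equiv.Perm (Fin 3)) (j : Fin 3),
    (Finset.univ.filter (fun v : Fin 6 => σ (c6 v) < σ j)).card = 2 * (σ j : ℕ) ∧
    (Finset.univ.filter (fun v : Fin 6 => σ j < σ (c6 v))).card = 2 * (2 - (σ j : ℕ)) := by
  decide

lemma K222_label (σ : Equiv.Perm (Fin 3)) (φ : Equiv.Perm (Fin 6))
    (h : ∀ u v, σ (c6 u) < σ (c6 v) → φ u < φ v) (u : Fin 6) :
    (φ u : ℕ) / 2 = σ (c6 u) := by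
  obtain ⟨h1, h2⟩ := c6_count σ (c6 u)
  have h3 : (Finset.univ.filter (fun v : Fin 6 => σ (c6 v) < σ (c6 u))).card ≤ φ u := by
    have : ((Finset.univ.filter (fun v : Fin 6 => σ (c6 v) < σ (c6 u))).image φ) ⊆
        Finset.Iio (φ u) := by
      intro x hx
      rw [Finset.mem_image] at hx
      obtain ⟨v, hv, rfl⟩ := hx
      rw [Finset.mem_filter] at hv
      rw [Finset.mem_Iio]
      exact h v u hv.2
    have h4 := Finset.card_le_card this
    rw [Finset.card_image_of_injective _ φ.injective, Fin.card_Iio] at h4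
    exact h4
  have h5 : (Finset.univ.filter (fun v : Fin 6 => σ (c6 u) < σ (c6 v))).card ≤ 6 - 1 - φ u := by
    have : ((Finset.univ.filter (fun v : Fin 6 => σ (c6 u) < σ (c6 v))).image φ) ⊆
        Finset.Ioi (φ u) := by
      intro x hx
      rw [Finset.mem_image] at hx
      obtain ⟨v, hv, rfl⟩ := hx
      rw [Finset.mem_filter] at hv
      rw [Finset.mem_Ioi]
      exact h u v hv.2
    have h4 := Finset.card_le_card this
    rw [Finset.card_image_of_injective _ φ.injective, Fin.card_Ioi] at h4
    exact h4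
  rw [h1] at h3
  rw [h2] at h5
  have h6 := (φ u).isLt
  have h7 := (σ (c6 u)).isLt
  omega

lemma K222_bottle : IsBottlegraph K222 K222 := by
  refine ⟨by norm_num, 3, c6, c6_surj, c6_adj, ?_⟩
  intro σ φ h
  refine ⟨1, by norm_num, {fun a => ⟨(a : ℕ), by omega⟩}, ⟨?_, ?_⟩, ?_⟩
  · rintro f rfl
    refine ⟨fun a b hab => hab, ?_⟩
    intro a b hab
    change K222.Adj (φ.symm (Fin.divNat _)) (φ.symm (Fin.divNat _))
    have ea : ∀ a : Fin 6, (Fin.divNat (⟨(a : ℕ), by omega⟩ : Fin (6 * 1))) = a := by
      intro a; ext; simp [Fin.divNat]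
    rw [ea, ea, c6_adj]
    intro heq
    have h1 := K222_label σ φ h (φ.symm a)
    have h2 := K222_label σ φ h (φ.symm b)
    rw [Equiv.apply_symm_apply] at h1 h2
    rw [heq, ← h2] at h1
    exact hab h1
  · rintro f rfl g rfl hfg
    exact absurd rfl hfg
  · ext x
    simp only [covered, Set.mem_singleton_iff, Set.iUnion_iUnion_eq_left, Set.mem_range,
      Set.mem_univ, iff_true]
    exact ⟨⟨x, by omega⟩, by ext; rfl⟩

/-- The sorted labelling. -/
lemma exists_sorted {N k : ℕ} (c : Fin N → Fin k) :
    ∃ φ : Equiv.Perm (Fin N), ∀ u v, c u < c v → φ u < φ v := by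
  refine ⟨(Tuple.sort c).symm, fun u v huv => ?_⟩
  by_contra hcon
  have h := Tuple.monotone_sort c (not_lt.1 hcon)
  simp only [Function.comp_apply, Equiv.apply_symm_apply] at h
  exact absurd huv (not_lt.2 h)

lemma divNat_mono {N t : ℕ} : Monotone (Fin.divNat : Fin (N * t) → Fin N) := by
  intro x y hxy
  change (x : ℕ) / t ≤ (y : ℕ) / t
  exact Nat.div_le_div_right hxy

lemma card_fiber {N t : ℕ} (P : Fin N → Prop) [DecidablePred P] :
    (Finset.univ.filter (fun x : Fin (N * t) => P x.divNat)).card =
      t * (Finset.univ.filter P).card := by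
  have h := Finset.card_bij' (s := Finset.univ.filter (fun x : Fin (N * t) => P x.divNat))
    (t := (Finset.univ.filter P) ×ˢ (Finset.univ : Finset (Fin t)))
    (fun x _ => finProdFinEquiv.symm x) (fun y _ => finProdFinEquiv y) ?_ ?_ ?_ ?_
  · rw [h, Finset.card_product, Finset.card_univ, Fintype.card_fin, mul_comm]
  · intro x hx
    simp only [Finset.mem_filter, Finset.mem_univ, true_and, Finset.mem_product, and_true] at hx ⊢
    exact hx
  · intro y hy
    simp only [Finset.mem_filter, Finset.mem_univ, true_and, Finset.mem_product, and_true] at hy ⊢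
    have : (finProdFinEquiv y).divNat = y.1 := by
      have := congrArg Prod.fst (finProdFinEquiv.symm_apply_apply y)
      exact this
    rw [this]
    exact hy
  · intro x _
    exact finProdFinEquiv.apply_symm_apply x
  · intro y _
    exact finProdFinEquiv.symm_apply_apply y

lemma c6_two : ∀ i : Fin 3, (Finset.univ.filter (fun a : Fin 6 => c6 a = i)).card = 2 := by
  decide

lemma fin3_chain (q : Fin 6 → Fin 3) (hm : Monotone q)
    (hne : ∀ a b : Fin 6, (a : ℕ) / 2 ≠ (b : ℕ) / 2 → q a ≠ q b) : ∀ a, q a = c6 a := by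
  have h01 : q 0 ≤ q 1 := hm (by decide)
  have h12 : q 1 < q 2 := lt_of_le_of_ne (hm (by decide)) (hne 1 2 (by decide))
  have h23 : q 2 ≤ q 3 := hm (by decide)
  have h34 : q 3 < q 4 := lt_of_le_of_ne (hm (by decide)) (hne 3 4 (by decide))
  have h45 : q 4 ≤ q 5 := hm (by decide)
  have l := fun a => (q a).isLt
  have l0 := l 0
  have l5 := l 5
  rw [Fin.le_def] at h01 h23 h45
  rw [Fin.lt_def] at h12 h34
  have e0 : (q 0 : ℕ) = 0 := by omega
  have e1 : (q 1 : ℕ) = 0 := by omega
  have e2 : (q 2 : ℕ) = 1 := by omega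
  have e3 : (q 3 : ℕ) = 1 := by omega
  have e4 : (q 4 : ℕ) = 2 := by omega
  have e5 : (q 5 : ℕ) = 2 := by omega
  intro a
  ext
  fin_cases a
  · exact e0
  · exact e1
  · exact e2
  · exact e3
  · exact e4
  · exact e5

lemma bottle_ge {N : ℕ} {B : SimpleGraph (Fin N)} (hb : IsBottlegraph K222 B) :
    3 ≤ chiCr B := by
  classical
  obtain ⟨hN, k, c, hc, hB, hall⟩ := hb
  obtain ⟨φ, hφ⟩ := exists_sorted c
  obtain ⟨t, ht, T, hT, hcov⟩ := hall 1 φ (fun u v h => hφ u v h)
  -- the part of a vertex of the blow-up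
  let q : Fin (N * t) → Fin k := fun x => c (φ.symm x.divNat)
  have hq : Monotone q := by
    intro x y hxy
    have h1 : x.divNat ≤ y.divNat := divNat_mono hxy
    by_contra hcon
    have h2 := hφ _ _ (not_le.1 hcon)
    rw [Equiv.apply_symm_apply, Equiv.apply_symm_apply] at h2
    exact absurd h1 (not_le.2 h2)
  have hcopy : ∀ f ∈ T, ∀ a b : Fin 6, (a : ℕ) / 2 ≠ (b : ℕ) / 2 → q (f a) ≠ q (f b) := by
    intro f hf a b hab
    have h := (hT.1 f hf).2 a b hab
    change B.Adj (φ.symm _) (φ.symm _) at h
    exact (hB _ _).1 h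
  -- a copy exists
  have hpos : 0 < N * t := Nat.mul_pos hN ht
  have hk : 3 ≤ k := by
    have hx : (⟨0, hpos⟩ : Fin (N * t)) ∈ covered T := by rw [hcov]; exact Set.mem_univ _
    simp only [covered, Set.mem_iUnion] at hx
    obtain ⟨f, hf, -⟩ := hx
    have h02 := hcopy f hf 0 2 (by decide)
    have h04 := hcopy f hf 0 4 (by decide)
    have h24 := hcopy f hf 2 4 (by decide)
    have h1 := (q (f 0)).isLt
    have h2 := (q (f 2)).isLt
    have h3 := (q (f 4)).isLt
    rw [Ne, Fin.ext_iff] at h02 h04 h24
    omega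
  unfold chiCr
  rw [mp_chrom hc hB]
  obtain ⟨j, hj⟩ := mp_least_mem (by omega) hc hB
  -- the least class misses a vertex
  have hlt : leastClass B k < N := by
    obtain ⟨l, hl⟩ : ∃ l : Fin k, l ≠ j := by
      by_cases h0 : j = ⟨0, by omega⟩
      · refine ⟨⟨1, by omega⟩, ?_⟩
        rw [h0]
        intro h
        rw [Fin.ext_iff] at h
        simp at h
      · exact ⟨⟨0, by omega⟩, fun h => h0 h.symm⟩
    obtain ⟨v, hv⟩ := hc l
    rw [hj]
    have : {v | c v = j} ⊂ Set.univ := by
      refine ⟨Set.subset_univ _, fun h => ?_⟩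
      have hh := h (Set.mem_univ v)
      simp only [Set.mem_ofPred_eq] at hh
      exact hl (hv.symm.trans hh)
    have h := Set.ncard_lt_ncard this (Set.toFinite _)
    rw [Set.ncard_univ, Nat.card_eq_fintype_card, Fintype.card_fin] at h
    exact h
  have hNpos : (0 : ℝ) < N := by exact_mod_cast hN
  have hltR : (leastClass B k : ℝ) < N := by exact_mod_cast hlt
  have hden : (0 : ℝ) < N - leastClass B k := by linarith
  rw [le_div_iff₀ hden]
  rcases Nat.lt_or_ge 3 k with hk4 | hk3
  · have hk4' : (4 : ℝ) ≤ k := by exact_mod_cast hk4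
    have h0 : (0 : ℝ) ≤ leastClass B k := Nat.cast_nonneg _
    nlinarith
  · have hk3' : k = 3 := by omega
    subst hk3'
    -- each copy meets each part of the blow-up in two vertices
    set T' : Finset (Fin 6 → Fin (N * t)) := T.toFinite.toFinset with hT'
    have hmem : ∀ f, f ∈ T' ↔ f ∈ T := fun f => T.toFinite.mem_toFinset
    have hchain : ∀ f ∈ T, ∀ a, q (f a) = c6 a := by
      intro f hf
      exact fin3_chain (fun a => q (f a)) (fun a b hab => hq ((hT.1 f hf).1.monotone hab))
        (fun a b hab => hcopy f hf a b hab)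
    have hcount : ∀ i : Fin 3,
        (Finset.univ.filter (fun x : Fin (N * t) => q x = i)).card = 2 * T'.card := by
      intro i
      have heq : Finset.univ.filter (fun x : Fin (N * t) => q x = i) =
          T'.biUnion (fun f => (Finset.univ.filter (fun a : Fin 6 => c6 a = i)).image f) := by
        ext x
        simp only [Finset.mem_filter, Finset.mem_univ, true_and, Finset.mem_biUnion,
          Finset.mem_image]
        constructor
        · intro hx
          have hx' : x ∈ covered T := by rw [hcov]; exact Set.mem_univ _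
          simp only [covered, Set.mem_iUnion, Set.mem_range] at hx'
          obtain ⟨f, hf, a, rfl⟩ := hx'
          exact ⟨f, (hmem f).2 hf, a, by rw [← hchain f hf a]; exact hx, rfl⟩
        · rintro ⟨f, hf, a, ha, rfl⟩
          rw [hchain f ((hmem f).1 hf) a]
          exact ha
      rw [heq, Finset.card_biUnion]
      · have : ∀ f ∈ T', ((Finset.univ.filter (fun a : Fin 6 => c6 a = i)).image f).card = 2 := by
          intro f hf
          rw [Finset.card_image_of_injective _ (hT.1 f ((hmem f).1 hf)).1.injective]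
          exact c6_two i
        rw [Finset.sum_congr rfl this, Finset.sum_const, smul_eq_mul, mul_comm]
      · intro f hf g hg hfg
        have h := hT.2 f ((hmem f).1 hf) g ((hmem g).1 hg) hfg
        refine Finset.disjoint_left.2 ?_
        intro x hx hy
        rw [Finset.mem_image] at hx hy
        obtain ⟨i, -, hi⟩ := hx
        obtain ⟨j, -, hj⟩ := hy
        exact Set.disjoint_left.1 h ⟨i, hi⟩ ⟨j, hj⟩
    have hpart : ∀ i : Fin 3,
        t * (Finset.univ.filter (fun v : Fin N => c v = i)).card = 2 * T'.card := by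
      intro i
      rw [← hcount i, card_fiber (fun y : Fin N => c (φ.symm y) = i)]
      congr 1
      apply Finset.card_bij (fun v _ => φ v)
      · intro v hv
        simpa using hv
      · intro v _ w _ h
        exact φ.injective h
      · intro y hy
        exact ⟨φ.symm y, by simpa using hy, by simp⟩
    have hsum : ∑ i : Fin 3, (Finset.univ.filter (fun v : Fin N => c v = i)).card = N := by
      have := Finset.card_eq_sum_card_fiberwise (f := c) (s := (Finset.univ : Finset (Fin N)))
        (t := (Finset.univ : Finset (Fin 3))) (fun _ _ => Finset.mem_coe.2 (Finset.mem_univ _))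
      rw [Finset.card_univ, Fintype.card_fin] at this
      exact this.symm
    rw [Fin.sum_univ_three] at hsum
    have e0 := hpart 0
    have e1 := hpart 1
    have e2 := hpart 2
    have ej := hpart j
    have hjc : leastClass B 3 = (Finset.univ.filter (fun v : Fin N => c v = j)).card := by
      rw [hj, ← Set.ncard_coe_finset]
      congr 1
      ext v
      simp
    have h3 : t * (3 * leastClass B 3) = t * N := by
      rw [hjc]
      have hs := congrArg (fun z => t * z) hsum
      simp only [mul_add] at hs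
      rw [← hs]
      linarith
    have h4 : 3 * leastClass B 3 = N := Nat.eq_of_mul_eq_mul_left ht h3
    have h5 : (3 : ℝ) * leastClass B 3 = N := by exact_mod_cast h4
    push_cast
    linarith

/-- The value of `χ*_cr` for `K222` is three. -/
theorem chiStarCr_K222 : chiStarCr K222 = 3 := by
  apply le_antisymm
  · have hbdd : BddBelow {x : ℝ | ∃ (N : ℕ) (B : SimpleGraph (Fin N)),
        IsBottlegraph K222 B ∧ x = chiCr B} := by
      refine ⟨3, ?_⟩
      rintro x ⟨N, B, hb, rfl⟩
      exact bottle_ge hb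
    have hmem : chiCr K222 ∈ {x : ℝ | ∃ (N : ℕ) (B : SimpleGraph (Fin N)),
        IsBottlegraph K222 B ∧ x = chiCr B} := ⟨6, K222, K222_bottle, rfl⟩
    exact (csInf_le hbdd hmem).trans chiCr_K222_le
  · have hne : {x : ℝ | ∃ (N : ℕ) (B : SimpleGraph (Fin N)),
        IsBottlegraph K222 B ∧ x = chiCr B}.Nonempty := ⟨_, 6, K222, K222_bottle, rfl⟩
    refine le_csInf hne ?_
    rintro x ⟨N, B, hb, rfl⟩
    exact bottle_ge hb

end Pool.Agent.H730R4
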