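import Mathlib

/-!
Definitions for ordered graph tilings and the interval critical chromatic number,
used by the hand-in on MP_ced62d_co.
-/

namespace Pool.Agent.H730R4

/-- `f` is a copy of the ordered graph `H` in the ordered graph `G`: it is order preserving
(strictly increasing, hence injective) and sends edges to edges. -/
def IsCopy {h n : ℕ} (H : SimpleGraph (Fin h)) (G : SimpleGraph (Fin n))
    (f : Fin h → Fin n) : Prop :=
  StrictMono f ∧ ∀ a b, H.Adj a b → G.Adj (f a) (f b)

/-- `T` is an `H`-tiling in `G`: a set of pairwise vertex-disjoint copies of `H`. -/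
def IsTiling {h n : ℕ} (H : SimpleGraph (Fin h)) (G : SimpleGraph (Fin n))
    (T : Set (Fin h → Fin n)) : Prop :=
  (∀ f ∈ T, IsCopy H G f) ∧
    ∀ f ∈ T, ∀ g ∈ T, f ≠ g → Disjoint (Set.range f) (Set.range g)

/-- The set of vertices covered by `T`. -/
def covered {h n : ℕ} (T : Set (Fin h → Fin n)) : Set (Fin n) := ⋃ f ∈ T, Set.range f

/-- `G` has a perfect `H`-tiling. -/
def HasPerfectTiling {h n : ℕ} (H : SimpleGraph (Fin h)) (G : SimpleGraph (Fin n)) : Prop :=
  ∃ T : Set (Fin h → Fin n), IsTiling H G T ∧ covered T = Set.univ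

/-- The least size of a colour class over all proper colourings of `B` with `k` colours. -/
noncomputable def leastClass {N : ℕ} (B : SimpleGraph (Fin N)) (k : ℕ) : ℕ :=
  sInf {m : ℕ | ∃ (C : B.Coloring (Fin k)) (i : Fin k), m = {v | C v = i}.ncard}

/-- The critical chromatic number `(χ - 1) N / (N - σ)` of an unordered graph on `N` vertices,
`σ` being the least size of a colour class over all proper colourings with `χ` colours. -/
noncomputable def chiCr {N : ℕ} (B : SimpleGraph (Fin N)) : ℝ :=
  ((B.chromaticNumber.toNat : ℝ) - 1) * N / (N - leastClass B B.chromaticNumber.toNat)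

/-- The blow-up of a graph on `Fin N`: the vertex `x` is replaced by the interval of the `t`
vertices `x t, ..., x t + t - 1`, which is an independent set. -/
def blowup {N : ℕ} (B : SimpleGraph (Fin N)) (t : ℕ) : SimpleGraph (Fin (N * t)) :=
  B.comap Fin.divNat

/-- `B` is a bottlegraph of the ordered graph `H`: it is a nonempty complete `k`-partite graph
(with nonempty parts, given by `c`), and for every permutation `σ` of the parts and every
interval labelling `φ` of `B` with respect to `σ`, some ordered blow-up of `(B, φ)` has a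
perfect `H`-tiling. -/
def IsBottlegraph {h N : ℕ} (H : SimpleGraph (Fin h)) (B : SimpleGraph (Fin N)) : Prop :=
  0 < N ∧ ∃ (k : ℕ) (c : Fin N → Fin k), Function.Surjective c ∧
    (∀ u v, B.Adj u v ↔ c u ≠ c v) ∧
    ∀ (σ : Equiv.Perm (Fin k)) (φ : Equiv.Perm (Fin N)),
      (∀ u v, σ (c u) < σ (c v) → φ u < φ v) →
        ∃ t : ℕ, 0 < t ∧ HasPerfectTiling H (blowup (B.comap φ.symm) t)

/-- The parameter `χ*_cr(H)` of the ordered graph `H`: the infimum of `χ_cr(B)` over all
bottlegraphs `B` of `H`. -/
noncomputable def chiStarCr {h : ℕ} (H : SimpleGraph (Fin h)) : ℝ :=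
  sInf {x : ℝ | ∃ (N : ℕ) (B : SimpleGraph (Fin N)), IsBottlegraph H B ∧ x = chiCr B}

/-- The ordered complete tripartite graph on `{0,...,5}` with parts the intervals
`{0,1}`, `{2,3}`, `{4,5}`. -/
def K222 : SimpleGraph (Fin 6) where
  Adj a b := (a : ℕ) / 2 ≠ (b : ℕ) / 2
  symm := ⟨fun _ _ h => Ne.symm h⟩
  loopless := ⟨fun _ h => h rfl⟩

end Pool.Agent.H730R4
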