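import Pool.Agent.H730R4.Defs

/-!
The counterexample graph for MP_ced62d_co.
-/

namespace Pool.Agent.H730R4

/-- A graph has no 4-cycle. -/
def C4Free {V : Type*} (F : SimpleGraph V) : Prop :=
  ∀ x y u v, x ≠ y → u ≠ v → F.Adj x u → F.Adj x v → F.Adj y u → F.Adj y v → False

/-- The point-line incidence graph of an affine plane (vertical lines omitted). -/
def plane (p : ℕ) : SimpleGraph ((ZMod p × ZMod p) ⊕ (ZMod p × ZMod p)) where
  Adj u v := match u, v with
    | Sum.inl a, Sum.inr b => a.2 = b.1 * a.1 + b.2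
    | Sum.inr b, Sum.inl a => a.2 = b.1 * a.1 + b.2
    | Sum.inl _, Sum.inl _ => False
    | Sum.inr _, Sum.inr _ => False
  symm := ⟨by
    rintro (a | a) (b | b) h
    · exact h
    · exact h
    · exact h
    · exact h⟩
  loopless := ⟨by
    rintro (a | a) h
    · exact h
    · exact h⟩

lemma plane_adj_lr {p : ℕ} (a b : ZMod p × ZMod p) :
    (plane p).Adj (Sum.inl a) (Sum.inr b) ↔ a.2 = b.1 * a.1 + b.2 := Iff.rfl

lemma plane_adj_rl {p : ℕ} (a b : ZMod p × ZMod p) :
    (plane p).Adj (Sum.inr b) (Sum.inl a) ↔ a.2 = b.1 * a.1 + b.2 := Iff.rfl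

lemma plane_adj_ll {p : ℕ} (a b : ZMod p × ZMod p) :
    ¬ (plane p).Adj (Sum.inl a) (Sum.inl b) := fun h => h

lemma plane_adj_rr {p : ℕ} (a b : ZMod p × ZMod p) :
    ¬ (plane p).Adj (Sum.inr a) (Sum.inr b) := fun h => h

lemma plane_key {p : ℕ} [Fact p.Prime] (a a' b b' : ZMod p × ZMod p) (ha : a ≠ a') (hb : b ≠ b')
    (h1 : a.2 = b.1 * a.1 + b.2) (h2 : a.2 = b'.1 * a.1 + b'.2)
    (h3 : a'.2 = b.1 * a'.1 + b.2) (h4 : a'.2 = b'.1 * a'.1 + b'.2) : False := by
  have h : (b.1 - b'.1) * (a.1 - a'.1) = 0 := by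
    linear_combination (-1 : ZMod p) * h1 + h2 + h3 - h4
  rcases mul_eq_zero.1 h with h | h
  · have e : b.1 = b'.1 := sub_eq_zero.1 h
    apply hb
    ext1
    · exact e
    · have : b.1 * a.1 + b.2 = b'.1 * a.1 + b'.2 := by rw [← h1, ← h2]
      rw [e] at this
      exact add_left_cancel this
  · have e : a.1 = a'.1 := sub_eq_zero.1 h
    apply ha
    ext1
    · exact e
    · rw [h1, h3, e]

lemma plane_c4free {p : ℕ} [Fact p.Prime] : C4Free (plane p) := by
  rintro (x | x) (y | y) (u | u) (v | v) hxy huv h1 h2 h3 h4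
  all_goals first
    | exact h1
    | exact h2
    | exact h3
    | exact h4
    | skip
  · rw [plane_adj_lr] at h1 h2 h3 h4
    exact plane_key x y u v (fun h => hxy (by rw [h])) (fun h => huv (by rw [h])) h1 h2 h3 h4
  · rw [plane_adj_rl] at h1 h2 h3 h4
    exact plane_key u v x y (fun h => huv (by rw [h])) (fun h => hxy (by rw [h])) h1 h3 h2 h4

lemma plane_deg {p : ℕ} [Fact p.Prime] (v : (ZMod p × ZMod p) ⊕ (ZMod p × ZMod p)) :
    p ≤ ((plane p).neighborSet v).ncard := by
  rcases v with a | b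
  · have hinj : Function.Injective
        (fun m : ZMod p => (Sum.inr (m, a.2 - m * a.1) : (ZMod p × ZMod p) ⊕ (ZMod p × ZMod p))) := by
      intro m m' h
      simp only [Sum.inr.injEq, Prod.mk.injEq] at h
      exact h.1
    have : Set.range (fun m : ZMod p =>
        (Sum.inr (m, a.2 - m * a.1) : (ZMod p × ZMod p) ⊕ (ZMod p × ZMod p)))
        ⊆ (plane p).neighborSet (Sum.inl a) := by
      rintro _ ⟨m, rfl⟩
      rw [SimpleGraph.mem_neighborSet, plane_adj_lr]
      ring
    have h2 := Set.ncard_le_ncard this (Set.toFinite _)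
    rw [← Set.image_univ, Set.ncard_image_of_injective _ hinj, Set.ncard_univ,
      Nat.card_zmod] at h2
    exact h2
  · have hinj : Function.Injective
        (fun x : ZMod p => (Sum.inl (x, b.1 * x + b.2) : (ZMod p × ZMod p) ⊕ (ZMod p × ZMod p))) := by
      intro m m' h
      simp only [Sum.inl.injEq, Prod.mk.injEq] at h
      exact h.1
    have : Set.range (fun x : ZMod p =>
        (Sum.inl (x, b.1 * x + b.2) : (ZMod p × ZMod p) ⊕ (ZMod p × ZMod p)))
        ⊆ (plane p).neighborSet (Sum.inr b) := by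
      rintro _ ⟨m, rfl⟩
      rw [SimpleGraph.mem_neighborSet, plane_adj_rl]
    have h2 := Set.ncard_le_ncard this (Set.toFinite _)
    rw [← Set.image_univ, Set.ncard_image_of_injective _ hinj, Set.ncard_univ,
      Nat.card_zmod] at h2
    exact h2

/-- A 4-cycle-free graph on `Fin (2 p^2)` with all degrees at least `p`. -/
lemma exists_c4free (p : ℕ) [Fact p.Prime] (M : ℕ) (hM : M = 2 * p ^ 2) :
    ∃ F : SimpleGraph (Fin M), C4Free F ∧ ∀ v, p ≤ (F.neighborSet v).ncard := by
  have hc : Fintype.card ((ZMod p × ZMod p) ⊕ (ZMod p × ZMod p)) = M := by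
    rw [Fintype.card_sum, Fintype.card_prod, ZMod.card, hM]; ring
  let e : (ZMod p × ZMod p) ⊕ (ZMod p × ZMod p) ≃ Fin M := Fintype.equivFinOfCardEq hc
  refine ⟨(plane p).comap e.symm, ?_, ?_⟩
  · intro x y u v hxy huv h1 h2 h3 h4
    exact plane_c4free (e.symm x) (e.symm y) (e.symm u) (e.symm v)
      (fun h => hxy (e.symm.injective h)) (fun h => huv (e.symm.injective h)) h1 h2 h3 h4
  · intro v
    have h := plane_deg (p := p) (e.symm v)
    have h2 : e '' ((plane p).neighborSet (e.symm v)) ⊆
        ((plane p).comap e.symm).neighborSet v := by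
      rintro _ ⟨w, hw, rfl⟩
      rw [SimpleGraph.mem_neighborSet] at hw ⊢
      simpa using hw
    have h3 := Set.ncard_le_ncard h2 (Set.toFinite _)
    rw [Set.ncard_image_of_injective _ e.injective] at h3
    exact h.trans h3

/-- The part of a vertex. -/
def part (a s u : ℕ) : ℕ := if u < a then 0 else if u < 2 * a + s then 1 else 2

/-- The ordered graph: three consecutive intervals of lengths `a`, `a + s`, `a + 2 s`, all edges
between different intervals, and a copy of `F` inside the last interval. -/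
def big (a s : ℕ) (F : SimpleGraph (Fin (a + 2 * s))) : SimpleGraph (Fin (3 * a + 3 * s)) where
  Adj u v := part a s u ≠ part a s v ∨
    ∃ i j : Fin (a + 2 * s), (u : ℕ) = 2 * a + s + i ∧ (v : ℕ) = 2 * a + s + j ∧ F.Adj i j
  symm := ⟨by
    rintro u v (h | ⟨i, j, h1, h2, h3⟩)
    · exact Or.inl h.symm
    · exact Or.inr ⟨j, i, h2, h1, h3.symm⟩⟩
  loopless := ⟨by
    rintro u (h | ⟨i, j, h1, h2, h3⟩)
    · exact h rfl
    · have : i = j := by ext; omega
      subst this
      exact F.loopless.irrefl _ h3⟩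

lemma copy_low {a s : ℕ} {F : SimpleGraph (Fin (a + 2 * s))} (hF : C4Free F)
    {f : Fin 6 → Fin (3 * a + 3 * s)} (hf : IsCopy K222 (big a s F) f) : (f 1 : ℕ) < a := by
  by_contra hcon
  have hmono := hf.1
  have hlt : ∀ j : Fin 6, 1 < j → (f 1 : ℕ) < f j := fun j hj => hmono hj
  have hhigh : ∀ j : Fin 6, 2 ≤ j → 2 * a + s ≤ (f j : ℕ) := by
    intro j hj
    have h1j : (1 : Fin 6) < j := lt_of_lt_of_le (by decide) hj
    have hl := hlt j h1j
    have hadj : K222.Adj 1 j := by
      change ((1 : Fin 6) : ℕ) / 2 ≠ (j : ℕ) / 2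
      have : (2 : ℕ) ≤ (j : ℕ) := hj
      have e : ((1 : Fin 6) : ℕ) / 2 = 0 := rfl
      rw [e]
      omega
    rcases hf.2 1 j hadj with h | ⟨i, k, h1, h2, -⟩
    · unfold part at h
      by_contra hc
      split_ifs at h <;> omega
    · omega
  have hidx : ∀ j : Fin 6, 2 ≤ j → ∃ i : Fin (a + 2 * s), (f j : ℕ) = 2 * a + s + i := by
    intro j hj
    have h1 := hhigh j hj
    have h2 := (f j).isLt
    exact ⟨⟨f j - (2 * a + s), by omega⟩, by simp only; omega⟩
  have hFadj : ∀ j l : Fin 6, 2 ≤ j → 2 ≤ l → K222.Adj j l → ∀ i k : Fin (a + 2 * s),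
      (f j : ℕ) = 2 * a + s + i → (f l : ℕ) = 2 * a + s + k → F.Adj i k := by
    intro j l hj hl hjl i k hi hk
    rcases hf.2 j l hjl with h | ⟨i', k', h1, h2, h3⟩
    · exfalso
      apply h
      unfold part
      rw [if_neg (by omega), if_neg (by omega), if_neg (by omega), if_neg (by omega)]
    · have e1 : i' = i := by ext; omega
      have e2 : k' = k := by ext; omega
      rw [e1, e2] at h3
      exact h3
  obtain ⟨i2, h2⟩ := hidx 2 (by decide)
  obtain ⟨i3, h3⟩ := hidx 3 (by decide)
  obtain ⟨i4, h4⟩ := hidx 4 (by decide)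
  obtain ⟨i5, h5⟩ := hidx 5 (by decide)
  have l23 : (f 2 : ℕ) < f 3 := hmono (by decide)
  have l45 : (f 4 : ℕ) < f 5 := hmono (by decide)
  have a24 : K222.Adj 2 4 := by change (2 : ℕ) / 2 ≠ 4 / 2; decide
  have a25 : K222.Adj 2 5 := by change (2 : ℕ) / 2 ≠ 5 / 2; decide
  have a34 : K222.Adj 3 4 := by change (3 : ℕ) / 2 ≠ 4 / 2; decide
  have a35 : K222.Adj 3 5 := by change (3 : ℕ) / 2 ≠ 5 / 2; decide
  refine hF i2 i3 i4 i5 ?_ ?_ (hFadj 2 4 (by decide) (by decide) a24 _ _ h2 h4)
    (hFadj 2 5 (by decide) (by decide) a25 _ _ h2 h5)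
    (hFadj 3 4 (by decide) (by decide) a34 _ _ h3 h4)
    (hFadj 3 5 (by decide) (by decide) a35 _ _ h3 h5)
  · intro h; rw [h] at h2; omega
  · intro h; rw [h] at h4; omega

/-- Counting: a tiling of the graph `big` misses at least `3 s` vertices. -/
lemma tiling_missing {a s : ℕ} {F : SimpleGraph (Fin (a + 2 * s))} (hF : C4Free F)
    {T : Set (Fin 6 → Fin (3 * a + 3 * s))} (hT : IsTiling K222 (big a s F) T) :
    3 * s ≤ ((covered T)ᶜ).ncard := by
  classical
  set T' : Finset (Fin 6 → Fin (3 * a + 3 * s)) := T.toFinite.toFinset with hT'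
  have hmem : ∀ f, f ∈ T' ↔ f ∈ T := fun f => T.toFinite.mem_toFinset
  have hcov : covered T = ↑(T'.biUnion fun f => Finset.univ.image f) := by
    ext x
    simp [covered, hmem]
  have hcard : (covered T).ncard ≤ 6 * T'.card := by
    rw [hcov, Set.ncard_coe_finset]
    calc (T'.biUnion fun f => Finset.univ.image f).card
        ≤ ∑ f ∈ T', (Finset.univ.image f).card := Finset.card_biUnion_le
      _ ≤ ∑ f ∈ T', 6 := Finset.sum_le_sum fun f _ => by
          simpa using (Finset.card_image_le (s := (Finset.univ : Finset (Fin 6))) (f := f))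
      _ = 6 * T'.card := by rw [Finset.sum_const, smul_eq_mul, mul_comm]
  have hlow : 2 * T'.card ≤ a := by
    have hd : ∀ f ∈ T', ∀ g ∈ T', f ≠ g →
        Disjoint ((({0, 1} : Finset (Fin 6))).image f) ((({0, 1} : Finset (Fin 6))).image g) := by
      intro f hf g hg hfg
      have h := hT.2 f ((hmem f).1 hf) g ((hmem g).1 hg) hfg
      rw [Finset.disjoint_left]
      intro x hx hy
      rw [Finset.mem_image] at hx hy
      obtain ⟨i, -, hi⟩ := hx
      obtain ⟨j, -, hj⟩ := hy
      exact Set.disjoint_left.1 h ⟨i, hi⟩ ⟨j, hj⟩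
    have h1 : (T'.biUnion fun f => (({0, 1} : Finset (Fin 6))).image f).card = 2 * T'.card := by
      rw [Finset.card_biUnion hd]
      have : ∀ f ∈ T', ((({0, 1} : Finset (Fin 6))).image f).card = 2 := by
        intro f hf
        have hinj := (hT.1 f ((hmem f).1 hf)).1.injective
        rw [Finset.card_image_of_injective _ hinj]
        rfl
      rw [Finset.sum_congr rfl this, Finset.sum_const, smul_eq_mul, mul_comm]
    have h2 : (T'.biUnion fun f => (({0, 1} : Finset (Fin 6))).image f) ⊆
        (Finset.univ.filter fun x : Fin (3 * a + 3 * s) => (x : ℕ) < a) := by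
      intro x hx
      rw [Finset.mem_biUnion] at hx
      obtain ⟨f, hf, hx⟩ := hx
      rw [Finset.mem_image] at hx
      obtain ⟨i, hi, rfl⟩ := hx
      have hc := hT.1 f ((hmem f).1 hf)
      have h1 := copy_low hF hc
      have h0 : (f 0 : ℕ) < f 1 := hc.1 (by decide)
      simp only [Finset.mem_insert, Finset.mem_singleton] at hi
      rw [Finset.mem_filter]
      refine ⟨Finset.mem_univ _, ?_⟩
      rcases hi with rfl | rfl
      · exact h0.trans h1
      · exact h1
    have h3 : (Finset.univ.filter fun x : Fin (3 * a + 3 * s) => (x : ℕ) < a).card ≤ a := by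
      have : (Finset.univ.filter fun x : Fin (3 * a + 3 * s) => (x : ℕ) < a).card ≤
          (Finset.range a).card := by
        apply Finset.card_le_card_of_injOn (fun x : Fin (3 * a + 3 * s) => (x : ℕ))
        · intro x hx
          simpa using hx
        · intro x _ y _ h
          exact Fin.ext h
      simpa using this
    have h4 := Finset.card_le_card h2
    omega
  have hsum := Set.ncard_add_ncard_compl (covered T)
  rw [Nat.card_eq_fintype_card, Fintype.card_fin] at hsum
  omega

/-- Degrees in `big`. -/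
lemma big_deg {a s : ℕ} {F : SimpleGraph (Fin (a + 2 * s))}
    (hdeg : ∀ v, s ≤ (F.neighborSet v).ncard) (v : Fin (3 * a + 3 * s)) :
    2 * (a + s) ≤ ((big a s F).neighborSet v).ncard := by
  classical
  have hcardlt : ∀ m : ℕ, m ≤ 3 * a + 3 * s →
      ({x : Fin (3 * a + 3 * s) | (x : ℕ) < m}).ncard = m := by
    intro m hm
    have : {x : Fin (3 * a + 3 * s) | (x : ℕ) < m} = Set.range (Fin.castLE hm) := by
      ext x
      constructor
      · intro hx
        exact ⟨⟨x, hx⟩, by ext; rfl⟩
      · rintro ⟨y, rfl⟩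
        exact y.isLt
    rw [this, ← Set.image_univ, Set.ncard_image_of_injective _ (Fin.castLE_injective hm),
      Set.ncard_univ, Nat.card_eq_fintype_card, Fintype.card_fin]
  have hcardge : ∀ m : ℕ, m ≤ 3 * a + 3 * s →
      ({x : Fin (3 * a + 3 * s) | m ≤ (x : ℕ)}).ncard = 3 * a + 3 * s - m := by
    intro m hm
    have h1 := Set.ncard_add_ncard_compl {x : Fin (3 * a + 3 * s) | (x : ℕ) < m}
    have h2 : {x : Fin (3 * a + 3 * s) | (x : ℕ) < m}ᶜ =
        {x : Fin (3 * a + 3 * s) | m ≤ (x : ℕ)} := by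
      ext x; simp
    rw [h2, hcardlt m hm, Nat.card_eq_fintype_card, Fintype.card_fin] at h1
    omega
  by_cases h1 : (v : ℕ) < a
  · have hsub : {x : Fin (3 * a + 3 * s) | a ≤ (x : ℕ)} ⊆ (big a s F).neighborSet v := by
      intro x hx
      left
      simp only [Set.mem_ofPred_eq] at hx
      unfold part
      rw [if_pos h1, if_neg (by omega)]
      split_ifs <;> decide
    have h2 := Set.ncard_le_ncard hsub (Set.toFinite _)
    rw [hcardge a (by omega)] at h2
    omega
  · by_cases h2 : (v : ℕ) < 2 * a + s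
    · have hsub : {x : Fin (3 * a + 3 * s) | (x : ℕ) < a} ∪
          {x : Fin (3 * a + 3 * s) | 2 * a + s ≤ (x : ℕ)} ⊆ (big a s F).neighborSet v := by
        rintro x (hx | hx)
        · left
          simp only [Set.mem_ofPred_eq] at hx
          unfold part
          rw [if_neg h1, if_pos h2, if_pos hx]
          decide
        · left
          simp only [Set.mem_ofPred_eq] at hx
          unfold part
          rw [if_neg h1, if_pos h2, if_neg (by omega), if_neg (by omega)]
          decide
      have h3 := Set.ncard_le_ncard hsub (Set.toFinite _)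
      have hdisj : Disjoint {x : Fin (3 * a + 3 * s) | (x : ℕ) < a}
          {x : Fin (3 * a + 3 * s) | 2 * a + s ≤ (x : ℕ)} := by
        rw [Set.disjoint_left]
        intro x hx hy
        simp only [Set.mem_ofPred_eq] at hx hy
        omega
      rw [Set.ncard_union_eq hdisj (Set.toFinite _) (Set.toFinite _), hcardlt a (by omega),
        hcardge (2 * a + s) (by omega)] at h3
      omega
    · obtain ⟨i, hi⟩ : ∃ i : Fin (a + 2 * s), (v : ℕ) = 2 * a + s + i :=
        ⟨⟨v - (2 * a + s), by have := v.isLt; omega⟩, by simp only; omega⟩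
      let g : Fin (a + 2 * s) → Fin (3 * a + 3 * s) := fun j => ⟨2 * a + s + j, by
        have := j.isLt; omega⟩
      have hg : Function.Injective g := by
        intro j k hjk
        have : 2 * a + s + (j : ℕ) = 2 * a + s + k := congrArg Fin.val hjk
        ext; omega
      have hsub : {x : Fin (3 * a + 3 * s) | (x : ℕ) < 2 * a + s} ∪ g '' (F.neighborSet i)
          ⊆ (big a s F).neighborSet v := by
        rintro x (hx | ⟨j, hj, rfl⟩)
        · left
          simp only [Set.mem_ofPred_eq] at hx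
          unfold part
          rw [if_neg h1, if_neg h2]
          split_ifs <;> decide
        · right
          exact ⟨i, j, hi, rfl, hj⟩
      have hdisj : Disjoint {x : Fin (3 * a + 3 * s) | (x : ℕ) < 2 * a + s}
          (g '' (F.neighborSet i)) := by
        rw [Set.disjoint_left]
        rintro x hx ⟨j, -, rfl⟩
        simp only [Set.mem_ofPred_eq, g] at hx
        omega
      have h3 := Set.ncard_le_ncard hsub (Set.toFinite _)
      rw [Set.ncard_union_eq hdisj (Set.toFinite _) (Set.toFinite _),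
        hcardlt (2 * a + s) (by omega), Set.ncard_image_of_injective _ hg] at h3
      have h4 := hdeg i
      omega

/-- For every prime `p` there is an ordered graph on `6 p^2 - 3 p` vertices with all degrees at
least two thirds of that number, in which every `K222`-tiling misses at least `3 p` vertices. -/
lemma exists_big (p : ℕ) (hp : p.Prime) :
    ∃ G : SimpleGraph (Fin (6 * p ^ 2 - 3 * p)),
      (∀ v, 2 * (6 * p ^ 2 - 3 * p) ≤ 3 * (G.neighborSet v).ncard) ∧
      ∀ T, IsTiling K222 G T → 3 * p ≤ ((covered T)ᶜ).ncard := by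
  have : Fact p.Prime := ⟨hp⟩
  have hp2 : 2 ≤ p := hp.two_le
  have hle : p ≤ p ^ 2 := by nlinarith
  obtain ⟨a, ha⟩ : ∃ a : ℕ, a + 2 * p = 2 * p ^ 2 := ⟨2 * p ^ 2 - 2 * p, by omega⟩
  obtain ⟨F, hF, hdeg⟩ := exists_c4free p (a + 2 * p) ha
  have hn : 6 * p ^ 2 - 3 * p = 3 * a + 3 * p := by omega
  rw [hn]
  refine ⟨big a p F, fun v => ?_, fun T hT => tiling_missing hF hT⟩
  have := big_deg hdeg v
  omega

end Pool.Agent.H730R4
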